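import Pool.Agent.Work.MP_9d4fac_mix.Defs

set_option autoImplicit false

namespace Pool.BraidIndex.Mix

open Pool.BraidIndex Pool.BraidIndex.Cox

instance finite_mcircle (D : List Piece) (X : Finset ℕ) : Finite (MCircle D X) := Quotient.finite _

instance finite_mcls (D : List Piece) (X : Finset ℕ) : Finite (MCls D X) := Quotient.finite _

theorem meet_unique {D : List Piece} {X : Finset ℕ} {t : ℕ} {a b c d : MCircle D X} (h : Meet D X t a b)
    (h' : Meet D X t c d) : a = c ∧ b = d := by
  obtain ⟨s, i, x, y, hD, hx, hy, rfl, rfl⟩ := h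
  obtain ⟨s', i', x', y', hD', hx', hy', rfl, rfl⟩ := h'
  rw [hD] at hD'
  obtain ⟨-, rfl⟩ : Kind.cross s = Kind.cross s' ∧ i = i' := by
    simpa using hD'
  have hxx : x = x' := Subtype.ext (hx.trans hx'.symm)
  have hyy : y = y' := Subtype.ext (hy.trans hy'.symm)
  subst hxx
  subst hyy
  exact ⟨rfl, rfl⟩

/-- every crossing in `X` reduces the number of classes by at most one -/
theorem m_cls (D : List Piece) (X : Finset ℕ) : mcircles D X ≤ X.card + Nat.card (MCls D X) := by
  classical
  rcases isEmpty_or_nonempty (MCircle D X) with hE | ⟨⟨c0⟩⟩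
  · rw [mcircles, Nat.card_of_isEmpty]
    exact Nat.zero_le _
  let P : ℕ → Prop := fun t => ∃ q : MCircle D X × MCircle D X, Meet D X t q.1 q.2
  let E : ℕ → MCircle D X × MCircle D X := fun t => if h : P t then h.choose else (c0, c0)
  have hE : ∀ t, P t → Meet D X t (E t).1 (E t).2 := by
    intro t h
    have h1 : E t = h.choose := dif_pos h
    rw [h1]
    exact h.choose_spec
  have hcount := p_count 2 (MCircle D X) X (fun t => (E t).1) (fun t => (E t).2)
  have hle : Nat.card {f : MCircle D X → ZMod 2 // ∀ t ∈ X, f (E t).1 = f (E t).2} ≤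
      Nat.card (MCls D X → ZMod 2) := by
    have hf : ∀ f : {f : MCircle D X → ZMod 2 // ∀ t ∈ X, f (E t).1 = f (E t).2},
        ∀ a b : MCircle D X, (mclsSetoid D X).r a b → f.1 a = f.1 b := by
      intro f a b hab
      induction hab with
      | rel a b h =>
        obtain ⟨t, ht, hj⟩ := h
        have hP : P t := ⟨(a, b), hj⟩
        obtain ⟨rfl, rfl⟩ := meet_unique hj (hE t hP)
        exact f.2 t ht
      | refl a => rfl
      | symm a b _ ih => exact ih.symm
      | trans a b c _ _ ih1 ih2 => exact ih1.trans ih2
    refine Nat.card_le_card_of_injective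
      (fun f => (fun c : MCls D X => Quotient.lift f.1 (fun a b h => hf f a b h) c)) ?_
    intro f g hfg
    apply Subtype.ext
    funext a
    have h := congrFun hfg (Quotient.mk (mclsSetoid D X) a)
    exact h
  have hcard : Nat.card (MCls D X → ZMod 2) = 2 ^ Nat.card (MCls D X) := by
    have := Fintype.ofFinite (MCls D X)
    rw [Nat.card_fun, Nat.card_zmod]
  rw [hcard] at hle
  have h2 : 2 ^ mcircles D X ≤ 2 ^ (X.card + Nat.card (MCls D X)) := by
    rw [pow_add]
    exact hcount.trans (Nat.mul_le_mul_left _ hle)
  exact (Nat.pow_le_pow_iff_right (by norm_num)).1 h2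

/-- if all rows consist of crossings of parallel strands the circles are the Seifert circles -/
theorem mcircles_par (D : List Piece) (X : Finset ℕ)
    (hpar : ∀ t s i, D[t]? = some (.cross s, i) → t ∉ X → Par D t i) : mcircles D X = circles D := by
  have h : ∀ a b, MSmooth D X a b ↔ Smooth D a b := by
    intro a b
    constructor
    · intro h
      cases h with
      | left t j i k h1 h2 => exact .left t j i k h1 h2
      | right t j i k h1 => exact .right t j i k h1
      | cup t i o h1 => exact .cup t i o h1
      | cap t i h1 => exact .cap t i h1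
      | vert0 t i s h1 h2 => exact .par0 t i s h1 (h2.elim (fun h3 => hpar t s i h1 h3) id)
      | vert1 t i s h1 h2 => exact .par1 t i s h1 (h2.elim (fun h3 => hpar t s i h1 h3) id)
      | hor0 t i s h1 h2 h3 => exact .anti0 t i s h1 h3
      | hor1 t i s h1 h2 h3 => exact .anti1 t i s h1 h3
    · intro h
      cases h with
      | left t j i k h1 h2 => exact .left t j i k h1 h2
      | right t j i k h1 => exact .right t j i k h1
      | cup t i o h1 => exact .cup t i o h1
      | cap t i h1 => exact .cap t i h1
      | par0 t i s h1 h2 => exact .vert0 t i s h1 (Or.inr h2)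
      | par1 t i s h1 h2 => exact .vert1 t i s h1 (Or.inr h2)
      | anti0 t i s h1 h2 => exact .hor0 t i s h1 (by by_contra h3; exact h2 (hpar t s i h1 h3)) h2
      | anti1 t i s h1 h2 => exact .hor1 t i s h1 (by by_contra h3; exact h2 (hpar t s i h1 h3)) h2
  have e : mixSetoid D X = circleSetoid D := by
    unfold mixSetoid circleSetoid
    congr 1
    funext a b
    exact propext (h a.1 b.1)
  unfold mcircles circles MCircle Circle
  rw [e]

end Pool.BraidIndex.Mix
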