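import Pool.Agent.Work.MP_9d4fac_cox.Final
import Pool.Agent.Work.MP_9d4fac_cox.CLower
import Pool.Agent.Work.MP_9d4fac_cox.Isotopic
import Pool.Agent.Work.MP_9d4fac_cox.T_local
import Pool.Agent.Work.MP_9d4fac_cox.T_row
import Pool.Agent.Work.MP_9d4fac_cox.T_kei
import Pool.Agent.Work.MP_9d4fac_cox.T_cls
import Pool.Agent.Work.MP_9d4fac_cox.CRefl

/-!
# Reflection colourings for rows of parallel or antiparallel strands
-/

set_option autoImplicit false

namespace Pool.BraidIndex.Mix

open Pool.BraidIndex Pool.BraidIndex.Cox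

/-- Neighbouring points after the crossings in `X` have been smoothed in the orientation respecting way and all other crossings
vertically, that is along the row. -/
inductive MSmooth (D : List Piece) (X : Finset ℕ) : ℕ × ℕ → ℕ × ℕ → Prop
  | left (t j i : ℕ) (k : Kind) : D[t]? = some (k, i) → j < i → MSmooth D X (t, j) (t + 1, j)
  | right (t j i : ℕ) (k : Kind) : D[t]? = some (k, i) → MSmooth D X (t, i + k.ar + j) (t + 1, i + k.oar + j)
  | cup (t i : ℕ) (o : Bool) : D[t]? = some (.cup o, i) → MSmooth D X (t + 1, i) (t + 1, i + 1)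
  | cap (t i : ℕ) : D[t]? = some (.cap, i) → MSmooth D X (t, i) (t, i + 1)
  | vert0 (t i : ℕ) (s : Bool) : D[t]? = some (.cross s, i) → (t ∉ X ∨ Par D t i) → MSmooth D X (t, i) (t + 1, i)
  | vert1 (t i : ℕ) (s : Bool) : D[t]? = some (.cross s, i) → (t ∉ X ∨ Par D t i) →
      MSmooth D X (t, i + 1) (t + 1, i + 1)
  | hor0 (t i : ℕ) (s : Bool) : D[t]? = some (.cross s, i) → t ∈ X → ¬ Par D t i → MSmooth D X (t, i) (t, i + 1)
  | hor1 (t i : ℕ) (s : Bool) : D[t]? = some (.cross s, i) → t ∈ X → ¬ Par D t i →
      MSmooth D X (t + 1, i) (t + 1, i + 1)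

/-- lying on one circle of this smoothing -/
def mixSetoid (D : List Piece) (X : Finset ℕ) : Setoid (Point D) :=
  Relation.EqvGen.setoid fun a b => MSmooth D X a.1 b.1

/-- the circles of this smoothing -/
def MCircle (D : List Piece) (X : Finset ℕ) : Type := Quotient (mixSetoid D X)

/-- the number of circles of this smoothing -/
noncomputable def mcircles (D : List Piece) (X : Finset ℕ) : ℕ := Nat.card (MCircle D X)

/-- `a`, `b` are the circles of the points `(t, i)`, `(t + 1, i + 1)` of the crossing `t`: these are the two circles which meet at a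
crossing in `X` -/
def Meet (D : List Piece) (X : Finset ℕ) (t : ℕ) (a b : MCircle D X) : Prop :=
  ∃ (s : Bool) (i : ℕ) (x y : Point D), D[t]? = some (.cross s, i) ∧ x.1 = (t, i) ∧ y.1 = (t + 1, i + 1) ∧
    a = Quotient.mk _ x ∧ b = Quotient.mk _ y

/-- circles which meet at a crossing in `X` are identified -/
def mclsSetoid (D : List Piece) (X : Finset ℕ) : Setoid (MCircle D X) :=
  Relation.EqvGen.setoid fun a b => ∃ t ∈ X, Meet D X t a b

/-- the classes of circles -/
def MCls (D : List Piece) (X : Finset ℕ) : Type := Quotient (mclsSetoid D X)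

/-- the class of a point -/
def mcls {D : List Piece} (X : Finset ℕ) (x : Point D) : MCls D X := Quotient.mk (mclsSetoid D X) (Quotient.mk _ x)

/-- The crossings outside `X` come in rows of consecutive equal crossings; the lengths of the rows between different classes `a`,
`b` are divisible by `m a b`. -/
def RowsM (D : List Piece) (X : Finset ℕ) (m : MCls D X → MCls D X → ℕ) : ℕ → List Piece → Prop :=
  RowsP X fun t i r => ∀ x y : Point D, x.1 = (t, i) → y.1 = (t, i + 1) → mcls X x ≠ mcls X y →
    m (mcls X x) (mcls X y) ∣ r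

end Pool.BraidIndex.Mix
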