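import Pool.Agent.Work.MP_9d4fac_mix.Cls
import Pool.Agent.Work.MP_9d4fac_mix.Lower

set_option autoImplicit false

namespace Pool.BraidIndex.Mix

open Pool.BraidIndex Pool.BraidIndex.Cox

theorem m_final (D : List Piece) (hD : IsDiagram D) (X : Finset ℕ) (m : MCls D X → MCls D X → ℕ)
    (hm : ∀ a b, a ≠ b → 2 ≤ m a b ∧ m a b = m b a) (hrows : RowsM D X m 0 D)
    (D' : List Piece) (h : Isotopic D D') : Nat.card (MCls D X) ≤ cups D' := by
  classical
  haveI : Fintype (MCls D X) := Fintype.ofFinite _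
  rcases isEmpty_or_nonempty (MCls D X) with hE | ⟨⟨c0⟩⟩
  · rw [Nat.card_of_isEmpty]; exact Nat.zero_le _
  obtain ⟨s, h1, h2, h3, h4⟩ := c_refl (MCls D X) m hm
  obtain ⟨Q, K, c, k1, k2, k3⟩ := c_kei (MCls D X) m s h1 h2 h3 h4
  let γ : ℕ × ℕ → MCls D X := fun q => if hq : InR D q then mcls X ⟨q, hq⟩ else c0
  have γeq : ∀ q (hq : InR D q), γ q = mcls X ⟨q, hq⟩ := fun q hq => dif_pos hq
  have γsm : ∀ a b, InR D a → InR D b → MSmooth D X a b → γ a = γ b := by
    intro a b ha hb hab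
    rw [γeq a ha, γeq b hb]
    have : (Quotient.mk (mixSetoid D X) ⟨a, ha⟩ : MCircle D X) = Quotient.mk (mixSetoid D X) ⟨b, hb⟩ :=
      Quotient.sound (Relation.EqvGen.rel _ _ hab)
    simp only [mcls]
    exact congrArg (Quotient.mk (mclsSetoid D X)) this
  have γin : ∀ t s i, D[t]? = some (.cross s, i) → InR D (t, i) ∧ InR D (t, i + 1) ∧ InR D (t + 1, i) ∧
      InR D (t + 1, i + 1) := by
    intro t s i ht
    obtain ⟨g0, r, g1, g2⟩ := Lower.len_step hD ht
    simp only [Kind.ar] at g1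
    simp only [Kind.oar] at g2
    exact ⟨⟨by simp only; omega, by simp only; omega⟩, ⟨by simp only; omega, by simp only; omega⟩,
      ⟨by simp only; omega, by simp only; omega⟩, ⟨by simp only; omega, by simp only; omega⟩⟩
  have γX : ∀ t ∈ X, ∀ s i, D[t]? = some (.cross s, i) → γ (t, i) = γ (t + 1, i + 1) := by
    intro t ht s i hti
    obtain ⟨g0, g1, g2, g3⟩ := γin t s i hti
    rw [γeq _ g0, γeq _ g3]
    exact Quotient.sound (Relation.EqvGen.rel _ _ ⟨t, ht, s, i, ⟨_, g0⟩, ⟨_, g3⟩, hti, rfl, rfl, rfl, rfl⟩)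
  obtain ⟨H, hH, hH2⟩ := m_lower c_row Q _ K D X (fun q => c (γ q)) hD
    (fun a b ha hb hab => congrArg c (γsm a b ha hb hab))
    (fun t ht s i hti => congrArg c (γX t ht s i hti))
    (rowsP_mono hrows [] D rfl rfl (by
      intro t i r s hk hP
      rcases Nat.eq_zero_or_pos r with rfl | hr
      · rfl
      obtain ⟨g0, g1, -, -⟩ := γin t s i (hk 0 hr)
      by_cases he : γ (t, i) = γ (t, i + 1)
      · simp only [← he]
        exact tw_same K _ r
      · refine k1 _ _ r he ?_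
        have := hP ⟨_, g0⟩ ⟨_, g1⟩ rfl rfl (by rw [← γeq, ← γeq]; exact he)
        rw [γeq _ g0, γeq _ g1]
        exact this))
  rw [c_isotopic c_local Q _ K D _ h] at hH
  obtain ⟨cs, hcs, hle⟩ := sp_cups K D' _ H hH
  rw [ls_nil, bot_sup_eq] at hle
  have htop : H = ⊤ := by
    refine k3 H fun a => ?_
    obtain ⟨q, rfl⟩ := Quotient.exists_rep a
    obtain ⟨x, rfl⟩ := Quotient.exists_rep q
    have := hH2 x.1 x.2
    simp only [γeq x.1 x.2] at this
    exact this
  have hle2 : ls K cs = ⊤ := by rw [htop] at hle; exact top_le_iff.1 hle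
  have h5 := k2 cs
  rw [hle2, finrank_top, Module.finrank_fintype_fun_eq_card, hcs] at h5
  rwa [Nat.card_eq_fintype_card]

end Pool.BraidIndex.Mix
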